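import Mathlib
import Pool.Agent.Q292.Eden.Defs
import Pool.Agent.Q292.Eden.Rhombus
import Pool.Agent.Q292.Eden.Metric
import Pool.Agent.Q292.Eden.Main

/-!
# A star-shaped set with Lipschitz boundary which is not a limit shape of weighted Eden growth
-/

namespace Pool.Agent.Results.MP_41ff67_pr.RhombusNotShape

open Q292.Eden

/-- Let `d ≥ 2` and let `μ` be any norm on `ℝ^d`. Put `L₀ = μ(e₂) / μ(e₁)`. For every `L > L₀` the
set `K = {x : |x₁| + L (|x₂| + ⋯ + |x_d|) ≤ 1}` satisfies all hypotheses of the question, but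
`K ≠ 𝔹` for every `α < 1` and every `α`-weight function `f`. -/
theorem result (d : ℕ) (hd : 2 ≤ d) (μ : Seminorm ℝ (E d)) (hμ : ∀ x, μ x = 0 → x = 0) :
    ∃ L₀ : ℝ, 0 < L₀ ∧
      L₀ * μ (EuclideanSpace.single ⟨0, by omega⟩ 1) = μ (EuclideanSpace.single ⟨1, by omega⟩ 1) ∧
      ∀ L : ℝ, L₀ < L → Admissible (rhombus d L) ∧
        ∀ α : ℝ, α < 1 → ∀ f : E d → ℝ, IsWeight α f → rhombus d L ≠ growthBall μ f := by
  have hpos : ∀ i : Fin d, 0 < μ (EuclideanSpace.single i 1) := by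
    intro i
    refine lt_of_le_of_ne (apply_nonneg μ _) fun h => ?_
    have h1 := congrArg norm (hμ _ h.symm)
    simp at h1
  have h0 := hpos ⟨0, by omega⟩
  have h1 := hpos ⟨1, by omega⟩
  refine ⟨_, div_pos h1 h0, div_mul_cancel₀ _ h0.ne', fun L hL => ?_⟩
  have hL0 : 0 < L := (div_pos h1 h0).trans hL
  refine ⟨admissible_rhombus hL0, fun α hα f hf => ?_⟩
  exact not_growthBall hμ hα hf hL0 (i0 := ⟨0, by omega⟩) (i1 := ⟨1, by omega⟩) rfl
    (by simp) ((div_lt_iff₀ h0).1 hL)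

end Pool.Agent.Results.MP_41ff67_pr.RhombusNotShape
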